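import Pool.Agent.W927.Gr.Null

/-!
A Borel injection of `2^ℕ × ℝ` into `ℝ` whose inverse has a second coordinate with a prescribed
modulus.
-/

namespace Pool.Agent.W927.Gr

open Set Filter Topology MeasureTheory

section Code

variable (m : ℕ → ℕ)

/-- The scales. -/
noncomputable def ell (k : ℕ) : ℝ := (1 / 2) ^ (m k) * (1 / 6) ^ k

/-- The digit blocks. -/
noncomputable def Ek (k : ℕ) (e : ℝ) : ℤ := ⌊(2 : ℝ) ^ (m k) * e⌋

/-- Digits. -/
noncomputable def Dk (k : ℕ) (e : ℝ) : ℤ := Ek m (k + 1) e - 2 ^ (m (k + 1) - m k) * Ek m k e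

/-- The terms. -/
noncomputable def ak (k : ℕ) (p : (ℕ → Bool) × ℝ) : ℝ :=
  (2 / 3) * ell m k * (if p.1 k then 1 else 0) + 2 * ell m (k + 1) * Dk m k p.2

variable {m} (hm : StrictMono m)

theorem ell_pos (k : ℕ) : 0 < ell m k := by unfold ell; positivity

include hm in
theorem ell_succ (k : ℕ) : ell m k = 6 * 2 ^ (m (k + 1) - m k) * ell m (k + 1) := by
  unfold ell
  obtain ⟨n, h⟩ : ∃ n, m (k + 1) = n + m k :=
    ⟨m (k + 1) - m k, by have := hm (show k < k + 1 by omega); omega⟩
  rw [h, Nat.add_sub_cancel_right]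
  rw [pow_add, pow_succ]
  have h2 : (2 : ℝ) ^ n * (1 / 2) ^ n = 1 := by
    rw [← mul_pow]; norm_num
  calc (1 / 2 : ℝ) ^ m k * (1 / 6) ^ k
      = (2 ^ n * (1 / 2) ^ n) * ((1 / 2 : ℝ) ^ m k * (1 / 6) ^ k) := by
        rw [h2, one_mul]
    _ = _ := by ring

include hm in
theorem two_pow_ge (k : ℕ) : (2 : ℝ) ≤ 2 ^ (m (k + 1) - m k) := by
  have := hm (show k < k + 1 by omega)
  calc (2 : ℝ) = 2 ^ 1 := by norm_num
    _ ≤ 2 ^ (m (k + 1) - m k) := pow_le_pow_right₀ (by norm_num) (by omega)

include hm in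
theorem ell_le (k : ℕ) : 12 * ell m (k + 1) ≤ ell m k := by
  rw [ell_succ hm k]
  have := two_pow_ge hm k
  have := ell_pos (m := m) (k + 1)
  nlinarith

include hm in
theorem Dk_nonneg (k : ℕ) (e : ℝ) : 0 ≤ Dk m k e := by
  unfold Dk Ek
  rw [sub_nonneg, Int.le_floor]
  obtain ⟨n, h⟩ : ∃ n, m (k + 1) = n + m k :=
    ⟨m (k + 1) - m k, by have := hm (show k < k + 1 by omega); omega⟩
  rw [h, Nat.add_sub_cancel_right]
  push_cast
  rw [pow_add, mul_assoc]
  exact mul_le_mul_of_nonneg_left (Int.floor_le _) (by positivity)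

include hm in
theorem Dk_lt (k : ℕ) (e : ℝ) : Dk m k e ≤ 2 ^ (m (k + 1) - m k) - 1 := by
  unfold Dk Ek
  obtain ⟨n, h⟩ : ∃ n, m (k + 1) = n + m k :=
    ⟨m (k + 1) - m k, by have := hm (show k < k + 1 by omega); omega⟩
  rw [h, Nat.add_sub_cancel_right]
  have h1 : ⌊(2 : ℝ) ^ (n + m k) * e⌋ < 2 ^ n * (⌊(2 : ℝ) ^ m k * e⌋ + 1) := by
    rw [Int.floor_lt]
    push_cast
    rw [pow_add, mul_assoc]
    exact mul_lt_mul_of_pos_left (Int.lt_floor_add_one _) (by positivity)
  rw [mul_add] at h1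
  omega

include hm in
theorem ak_nonneg (k : ℕ) (p : (ℕ → Bool) × ℝ) : 0 ≤ ak m k p := by
  unfold ak
  have h1 : (0 : ℝ) ≤ Dk m k p.2 := by exact_mod_cast Dk_nonneg hm k p.2
  have := ell_pos (m := m) k
  have := ell_pos (m := m) (k + 1)
  split_ifs <;> positivity

include hm in
theorem ak_le (k : ℕ) (p : (ℕ → Bool) × ℝ) : ak m k p ≤ ell m k - 2 * ell m (k + 1) := by
  unfold ak
  have h1 : (Dk m k p.2 : ℝ) ≤ 2 ^ (m (k + 1) - m k) - 1 := by exact_mod_cast Dk_lt hm k p.2
  have h2 := ell_pos (m := m) k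
  have h3 := ell_pos (m := m) (k + 1)
  have h4 := ell_succ hm k
  have h5 : (2 / 3) * ell m k * (if p.1 k then 1 else 0) ≤ (2 / 3) * ell m k := by
    split_ifs <;> nlinarith
  have h6 : 2 * ell m (k + 1) * Dk m k p.2 ≤
      2 * ell m (k + 1) * (2 ^ (m (k + 1) - m k) - 1) :=
    mul_le_mul_of_nonneg_left h1 (by positivity)
  nlinarith

theorem ell_summable (hm : StrictMono m) : Summable (ell m) := by
  have h : ∀ k, ell m k ≤ (1 / 6) ^ k := by
    intro k
    unfold ell
    have : ((1 : ℝ) / 2) ^ m k ≤ 1 := pow_le_one₀ (by norm_num) (by norm_num)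
    have h2 : (0 : ℝ) < (1 / 6) ^ k := by positivity
    nlinarith
  exact Summable.of_nonneg_of_le (fun k => (ell_pos k).le) h
    (summable_geometric_of_lt_one (by norm_num) (by norm_num))

include hm in
theorem ak_summable (p : (ℕ → Bool) × ℝ) : Summable fun k => ak m k p :=
  Summable.of_nonneg_of_le (fun k => ak_nonneg hm k p)
    (fun k => (ak_le hm k p).trans (by have := ell_pos (m := m) (k + 1); linarith))
    (ell_summable hm)

variable (m) in
/-- The tails. -/
noncomputable def Rk (k : ℕ) (p : (ℕ → Bool) × ℝ) : ℝ := ∑' j, ak m (j + k) p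

include hm in
theorem Rk_eq (k : ℕ) (p : (ℕ → Bool) × ℝ) : Rk m k p = ak m k p + Rk m (k + 1) p := by
  unfold Rk
  have h : Summable fun j => ak m (j + k) p := (summable_nat_add_iff k).2 (ak_summable hm p)
  rw [h.tsum_eq_zero_add]
  congr 1
  · rw [zero_add]
  · refine tsum_congr fun j => ?_
    rw [add_assoc, add_comm 1 k]

include hm in
theorem Rk_nonneg (k : ℕ) (p : (ℕ → Bool) × ℝ) : 0 ≤ Rk m k p :=
  tsum_nonneg fun j => ak_nonneg hm _ p

include hm in
theorem Rk_le (k : ℕ) (p : (ℕ → Bool) × ℝ) : Rk m k p ≤ ell m k := by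
  have h0 : Tendsto (fun n => ell m (n + k)) atTop (𝓝 0) := by
    have := (ell_summable hm).tendsto_atTop_zero
    exact (tendsto_add_atTop_iff_nat k).2 this
  have h1 : HasSum (fun j => ell m (j + k) - ell m (j + 1 + k)) (ell m k) := by
    have h2 := HasSum.sub (a₁ := ∑' j, ell m (j + k)) (a₂ := ∑' j, ell m (j + 1 + k))
      (f := fun j => ell m (j + k)) (g := fun j => ell m (j + 1 + k))
      ((summable_nat_add_iff k).2 (ell_summable hm)).hasSum
      (((summable_nat_add_iff (f := fun j => ell m (j + k)) 1).2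
        ((summable_nat_add_iff k).2 (ell_summable hm))).hasSum)
    have h3 : (∑' j, ell m (j + k)) = ell m (0 + k) + ∑' j, ell m (j + 1 + k) :=
      ((summable_nat_add_iff k).2 (ell_summable hm)).tsum_eq_zero_add
    rw [h3, add_sub_cancel_right, zero_add] at h2
    exact h2
  unfold Rk
  rw [← h1.tsum_eq]
  refine Summable.tsum_le_tsum (fun j => ?_) ((summable_nat_add_iff k).2 (ak_summable hm p))
    h1.summable
  refine (ak_le hm (j + k) p).trans ?_
  have e1 : j + k + 1 = j + 1 + k := by ring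
  rw [e1]
  have := ell_pos (m := m) (j + 1 + k)
  linarith

variable (m) in
/-- The coding map. -/
noncomputable def hh (p : (ℕ → Bool) × ℝ) : ℝ := 2 * Ek m 0 p.2 + Rk m 0 p

theorem measurable_ak (k : ℕ) : Measurable (ak m k) := by
  unfold ak
  have h1 : Measurable fun p : (ℕ → Bool) × ℝ => (if p.1 k then (1 : ℝ) else 0) := by
    have h0 : Measurable fun p : (ℕ → Bool) × ℝ => p.1 k :=
      (measurable_pi_apply k).comp measurable_fst
    exact (Measurable.of_discrete (f := fun b : Bool => if b then (1 : ℝ) else 0)).comp h0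
  have h2 : ∀ k, Measurable fun p : (ℕ → Bool) × ℝ => ((Ek m k p.2 : ℤ) : ℝ) := by
    intro k
    unfold Ek
    exact (measurable_from_top.comp (Int.measurable_floor.comp (measurable_snd.const_mul _)))
  have h3 : Measurable fun p : (ℕ → Bool) × ℝ => ((Dk m k p.2 : ℤ) : ℝ) := by
    unfold Dk
    push_cast
    exact (h2 _).sub ((h2 _).const_mul _)
  exact (h1.const_mul _).add (h3.const_mul _)

include hm in
theorem measurable_hh : Measurable (hh m) := by
  unfold hh
  refine Measurable.add ?_ ?_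
  · refine Measurable.const_mul ?_ _
    unfold Ek
    exact (measurable_from_top.comp (Int.measurable_floor.comp (measurable_snd.const_mul _)))
  · refine measurable_of_tendsto_metrizable (f := fun n p => ∑ j ∈ Finset.range n, ak m j p)
      (fun n => Finset.measurable_sum _ fun j _ => measurable_ak j) ?_
    rw [tendsto_pi_nhds]
    intro p
    exact (ak_summable hm p).hasSum.tendsto_sum_nat

theorem abs_le_Ek (k : ℕ) (e e' : ℝ) :
    |e - e'| ≤ (|((Ek m k e : ℤ) : ℝ) - Ek m k e'| + 1) * (6 ^ k * ell m k) := by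
  have h0 : (6 : ℝ) ^ k * ell m k = (1 / 2) ^ m k := by
    unfold ell
    have : (6 : ℝ) ^ k * (1 / 6) ^ k = 1 := by rw [← mul_pow]; norm_num
    calc (6 : ℝ) ^ k * ((1 / 2) ^ m k * (1 / 6) ^ k)
        = (1 / 2) ^ m k * ((6 : ℝ) ^ k * (1 / 6) ^ k) := by ring
      _ = _ := by rw [this, mul_one]
  rw [h0]
  have h1 := Int.floor_le ((2 : ℝ) ^ m k * e)
  have h2 := Int.lt_floor_add_one ((2 : ℝ) ^ m k * e)
  have h3 := Int.floor_le ((2 : ℝ) ^ m k * e')
  have h4 := Int.lt_floor_add_one ((2 : ℝ) ^ m k * e')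
  have h5 : (2 : ℝ) ^ m k * |e - e'| ≤ |((Ek m k e : ℤ) : ℝ) - Ek m k e'| + 1 := by
    unfold Ek
    have h6 : (2 : ℝ) ^ m k * |e - e'| = |(2 : ℝ) ^ m k * e - (2 : ℝ) ^ m k * e'| := by
      rw [← mul_sub, abs_mul, abs_of_pos (by positivity : (0 : ℝ) < 2 ^ m k)]
    rw [h6]
    have h7 := le_abs_self (((⌊(2 : ℝ) ^ m k * e⌋ : ℤ) : ℝ) - ⌊(2 : ℝ) ^ m k * e'⌋)
    have h8 := neg_abs_le (((⌊(2 : ℝ) ^ m k * e⌋ : ℤ) : ℝ) - ⌊(2 : ℝ) ^ m k * e'⌋)
    rw [abs_le]
    constructor <;> linarith
  have h6 : (2 : ℝ) ^ m k * (1 / 2) ^ m k = 1 := by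
    rw [← mul_pow]; norm_num
  calc |e - e'| = (2 ^ m k * |e - e'|) * (1 / 2) ^ m k := by
        rw [mul_comm ((2 : ℝ) ^ m k), mul_assoc, h6, mul_one]
    _ ≤ _ := mul_le_mul_of_nonneg_right h5 (by positivity)

theorem ell_zero_le : ell m 0 ≤ 1 := by
  unfold ell
  rw [pow_zero, mul_one]
  exact pow_le_one₀ (by norm_num) (by norm_num)

/-- The main separation property. -/
theorem sep (hm : StrictMono m) {p q : (ℕ → Bool) × ℝ} (h : |hh m p - hh m q| < 1) (hpq : p ≠ q) :
    ∃ k, 0 < |hh m p - hh m q| ∧ |hh m p - hh m q| ≤ ell m k ∧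
      |p.2 - q.2| ≤ 12 * 6 ^ k * |hh m p - hh m q| := by
  classical
  have hE0 : Ek m 0 p.2 = Ek m 0 q.2 := by
    by_contra hne
    have h1 : (1 : ℝ) ≤ |((Ek m 0 p.2 : ℤ) : ℝ) - Ek m 0 q.2| := by
      have : (1 : ℤ) ≤ |Ek m 0 p.2 - Ek m 0 q.2| := Int.one_le_abs (sub_ne_zero.2 hne)
      exact_mod_cast this
    unfold hh at h
    have a1 := Rk_nonneg hm 0 p
    have a2 := Rk_nonneg hm 0 q
    have a3 := Rk_le hm 0 p
    have a4 := Rk_le hm 0 q
    have a5 := ell_zero_le (m := m)
    rw [abs_lt] at h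
    rcases le_total (0 : ℝ) (((Ek m 0 p.2 : ℤ) : ℝ) - Ek m 0 q.2) with h2 | h2
    · rw [abs_of_nonneg h2] at h1
      linarith
    · rw [abs_of_nonpos h2] at h1
      linarith
  have hEs : ∀ k, Dk m k p.2 = Dk m k q.2 → Ek m k p.2 = Ek m k q.2 →
      Ek m (k + 1) p.2 = Ek m (k + 1) q.2 := by
    intro k h1 h2
    unfold Dk at h1
    rw [h2] at h1
    exact sub_left_injective h1
  by_cases hall : ∀ k, p.1 k = q.1 k ∧ Dk m k p.2 = Dk m k q.2
  · exfalso
    apply hpq
    have hE : ∀ k, Ek m k p.2 = Ek m k q.2 := by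
      intro k
      induction k with
      | zero => exact hE0
      | succ k ih => exact hEs k (hall k).2 ih
    refine Prod.ext (funext fun k => (hall k).1) ?_
    have h1 : ∀ k, |p.2 - q.2| ≤ (1 / 2) ^ k := by
      intro k
      have h2 := abs_le_Ek (m := m) k p.2 q.2
      rw [hE k, sub_self, abs_zero, zero_add, one_mul] at h2
      refine h2.trans ?_
      unfold ell
      have h3 : (6 : ℝ) ^ k * (1 / 6) ^ k = 1 := by rw [← mul_pow]; norm_num
      calc (6 : ℝ) ^ k * ((1 / 2) ^ m k * (1 / 6) ^ k)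
          = (1 / 2) ^ m k * ((6 : ℝ) ^ k * (1 / 6) ^ k) := by ring
        _ = (1 / 2) ^ m k := by rw [h3, mul_one]
        _ ≤ (1 / 2) ^ k := pow_le_pow_of_le_one (by norm_num) (by norm_num) (hm.id_le k)
    have h2 : Tendsto (fun k : ℕ => (1 / 2 : ℝ) ^ k) atTop (𝓝 0) :=
      tendsto_pow_atTop_nhds_zero_of_lt_one (by norm_num) (by norm_num)
    have h3 := ge_of_tendsto' h2 h1
    exact sub_eq_zero.1 (abs_eq_zero.1 (le_antisymm h3 (abs_nonneg _)))
  · have hex : ∃ k, ¬ (p.1 k = q.1 k ∧ Dk m k p.2 = Dk m k q.2) := not_forall.1 hall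
    obtain ⟨k, hk, hmin⟩ : ∃ k, ¬ (p.1 k = q.1 k ∧ Dk m k p.2 = Dk m k q.2) ∧
        ∀ j < k, p.1 j = q.1 j ∧ Dk m j p.2 = Dk m j q.2 :=
      ⟨Nat.find hex, Nat.find_spec hex, fun j hj => not_not.1 (Nat.find_min hex hj)⟩
    have hE : ∀ j ≤ k, Ek m j p.2 = Ek m j q.2 := by
      intro j
      induction j with
      | zero => exact fun _ => hE0
      | succ j ih => exact fun hj => hEs j (hmin j (by omega)).2 (ih (by omega))
    have hR : ∀ j ≤ k, hh m p - hh m q = Rk m j p - Rk m j q := by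
      intro j
      induction j with
      | zero =>
        intro _
        unfold hh
        rw [hE0]
        ring
      | succ j ih =>
        intro hj
        rw [ih (by omega), Rk_eq hm j p, Rk_eq hm j q]
        have : ak m j p = ak m j q := by
          unfold ak
          rw [(hmin j (by omega)).1, (hmin j (by omega)).2]
        rw [this]
        ring
    have b1 := Rk_nonneg hm k p
    have b2 := Rk_nonneg hm k q
    have b3 := Rk_le hm k p
    have b4 := Rk_le hm k q
    have c1 := Rk_nonneg hm (k + 1) p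
    have c2 := Rk_nonneg hm (k + 1) q
    have c3 := Rk_le hm (k + 1) p
    have c4 := Rk_le hm (k + 1) q
    have d1 := ell_pos (m := m) k
    have d2 := ell_pos (m := m) (k + 1)
    have d3 := ell_succ hm k
    have hle : |hh m p - hh m q| ≤ ell m k := by
      rw [hR k le_rfl, abs_le]
      constructor <;> linarith
    have hRk : hh m p - hh m q = (ak m k p - ak m k q) + (Rk m (k + 1) p - Rk m (k + 1) q) := by
      rw [hR k le_rfl, Rk_eq hm k p, Rk_eq hm k q]
      ring
    have h6 : (0 : ℝ) < 6 ^ k := by positivity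
    by_cases hc : p.1 k = q.1 k
    · have hD : Dk m k p.2 ≠ Dk m k q.2 := fun h => hk ⟨hc, h⟩
      set D : ℝ := ((Dk m k p.2 : ℤ) : ℝ) - Dk m k q.2 with hDdef
      have h1 : (1 : ℝ) ≤ |D| := by
        have : (1 : ℤ) ≤ |Dk m k p.2 - Dk m k q.2| := Int.one_le_abs (sub_ne_zero.2 hD)
        rw [hDdef]
        exact_mod_cast this
      have h2 : ak m k p - ak m k q = 2 * ell m (k + 1) * D := by
        unfold ak
        rw [hc, hDdef]
        ring
      have h3 : ell m (k + 1) * |D| ≤ |hh m p - hh m q| := by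
        rw [hRk, h2]
        rcases le_total 0 D with h | h
        · rw [abs_of_nonneg h] at h1 ⊢
          refine le_trans ?_ (le_abs_self _)
          nlinarith
        · rw [abs_of_nonpos h] at h1 ⊢
          refine le_trans ?_ (neg_le_abs _)
          nlinarith
      refine ⟨k, ?_, hle, ?_⟩
      · exact lt_of_lt_of_le (by positivity) h3
      · have h4 := abs_le_Ek (m := m) (k + 1) p.2 q.2
        have h5 : ((Ek m (k + 1) p.2 : ℤ) : ℝ) - Ek m (k + 1) q.2 = D := by
          rw [hDdef]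
          unfold Dk
          rw [hE k le_rfl]
          push_cast
          ring
        rw [h5] at h4
        refine h4.trans ?_
        have h7 : (|D| + 1) * (6 ^ (k + 1) * ell m (k + 1)) ≤
            (2 * |D|) * (6 ^ (k + 1) * ell m (k + 1)) :=
          mul_le_mul_of_nonneg_right (by linarith) (by positivity)
        refine h7.trans ?_
        calc (2 * |D|) * (6 ^ (k + 1) * ell m (k + 1))
            = 12 * 6 ^ k * (ell m (k + 1) * |D|) := by ring
          _ ≤ _ := mul_le_mul_of_nonneg_left h3 (by positivity)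
    · have h1 : |((Dk m k p.2 : ℤ) : ℝ) - Dk m k q.2| ≤ 2 ^ (m (k + 1) - m k) - 1 := by
        have a1 := Dk_nonneg hm k p.2
        have a2 := Dk_nonneg hm k q.2
        have a3 := Dk_lt hm k p.2
        have a4 := Dk_lt hm k q.2
        have : |Dk m k p.2 - Dk m k q.2| ≤ 2 ^ (m (k + 1) - m k) - 1 := by
          rw [abs_le]
          constructor <;> linarith
        exact_mod_cast this
      set D : ℝ := ((Dk m k p.2 : ℤ) : ℝ) - Dk m k q.2 with hDdef
      have h2 : ell m k / 3 ≤ |hh m p - hh m q| := by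
        rw [hRk]
        have hDl := neg_abs_le D
        have hDu := le_abs_self D
        have e1 : 2 * ell m (k + 1) * D ≤ ell m k / 3 - 2 * ell m (k + 1) := by nlinarith
        have e2 : -(ell m k / 3 - 2 * ell m (k + 1)) ≤ 2 * ell m (k + 1) * D := by nlinarith
        rcases Bool.eq_false_or_eq_true (p.1 k) with hp | hp
        · have hq : q.1 k = false := by
            rcases Bool.eq_false_or_eq_true (q.1 k) with h | h
            · exact absurd (hp.trans h.symm) hc
            · exact h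
          have h3 : ak m k p - ak m k q = (2 / 3) * ell m k + 2 * ell m (k + 1) * D := by
            unfold ak
            rw [hp, hq, hDdef]
            simp only [if_true, Bool.false_eq_true, if_false]
            ring
          rw [h3]
          refine le_trans ?_ (le_abs_self _)
          linarith
        · have hq : q.1 k = true := by
            rcases Bool.eq_false_or_eq_true (q.1 k) with h | h
            · exact h
            · exact absurd (hp.trans h.symm) hc
          have h3 : ak m k p - ak m k q = -((2 / 3) * ell m k) + 2 * ell m (k + 1) * D := by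
            unfold ak
            rw [hp, hq, hDdef]
            simp only [if_true, Bool.false_eq_true, if_false]
            ring
          rw [h3]
          refine le_trans ?_ (neg_le_abs _)
          linarith
      refine ⟨k, lt_of_lt_of_le (by positivity) h2, hle, ?_⟩
      have h4 := abs_le_Ek (m := m) k p.2 q.2
      rw [hE k le_rfl, sub_self, abs_zero, zero_add, one_mul] at h4
      refine h4.trans ?_
      have h5 : 6 ^ k * ell m k ≤ 6 ^ k * (12 * |hh m p - hh m q|) :=
        mul_le_mul_of_nonneg_left (by linarith) h6.le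
      linarith

theorem hh_inj (hm : StrictMono m) : Function.Injective (hh m) := by
  intro p q h
  by_contra hne
  obtain ⟨k, h1, -⟩ := sep hm (p := p) (q := q) (by rw [h, sub_self, abs_zero]; norm_num) hne
  rw [h, sub_self, abs_zero] at h1
  exact lt_irrefl _ h1

theorem hh_emb (hm : StrictMono m) : MeasurableEmbedding (hh m) :=
  (measurable_hh hm).measurableEmbedding (hh_inj hm)

end Code

end Pool.Agent.W927.Gr
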