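import Pool.Agent.W927.Gr.Cod

/-!
Gauge functions, Hausdorff measures and subsets of finite positive measure.
-/

namespace Pool.Agent.W927.Gr

open Set Filter Topology MeasureTheory
open scoped NNReal ENNReal

/-- Gauge functions. -/
structure IsGauge (f : ℝ≥0 → ℝ≥0) : Prop where
  /-- nondecreasing -/
  mono : Monotone f
  /-- right-continuous -/
  rc : ∀ t, ContinuousWithinAt f (Ici t) t
  /-- zero at zero -/
  zero : f 0 = 0
  /-- positive elsewhere -/
  pos : ∀ t, 0 < t → 0 < f t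

/-- `H^f_δ`: the infimum of `∑ f (diam U_i)` over countable covers by sets of diameter at most
`δ`. -/
noncomputable def Hd (f : ℝ≥0 → ℝ≥0) (δ : ℝ≥0) (A : Set ℝ) : ℝ≥0∞ :=
  ⨅ (U : ℕ → Set ℝ) (_ : A ⊆ ⋃ i, U i) (_ : ∀ i, Metric.ediam (U i) ≤ δ),
    ∑' i, (f (Metric.ediam (U i)).toNNReal : ℝ≥0∞)

/-- The Hausdorff outer measure `H^f`: the limit (supremum) of `H^f_δ` as `δ` tends to `0`. -/
noncomputable def HM (f : ℝ≥0 → ℝ≥0) (A : Set ℝ) : ℝ≥0∞ := ⨆ (δ : ℝ≥0) (_ : 0 < δ), Hd f δ A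

variable {f : ℝ≥0 → ℝ≥0}

theorem HM_eq (h0 : f 0 = 0) (A : Set ℝ) :
    HM f A = Measure.mkMetric (fun x : ℝ≥0∞ => (f x.toNNReal : ℝ≥0∞)) A := by
  rw [Measure.mkMetric_apply]
  have e : ∀ U : ℕ → Set ℝ, (∑' i, (f (Metric.ediam (U i)).toNNReal : ℝ≥0∞)) =
      ∑' n, ⨆ _ : (U n).Nonempty, (f (Metric.ediam (U n)).toNNReal : ℝ≥0∞) := by
    intro U
    refine tsum_congr fun n => ?_
    rcases (U n).eq_empty_or_nonempty with h | h
    · rw [h]
      simp [h0]
    · rw [iSup_pos h]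
  refine le_antisymm ?_ ?_
  · refine iSup₂_le fun δ hδ => ?_
    refine le_iSup₂_of_le (δ : ℝ≥0∞) (by exact_mod_cast hδ) ?_
    unfold Hd
    simp only [e]
    exact le_rfl
  · refine iSup₂_le fun r hr => ?_
    obtain ⟨δ, hδ, hδr⟩ := ENNReal.lt_iff_exists_nnreal_btwn.1 hr
    refine le_iSup₂_of_le δ (by exact_mod_cast hδ) ?_
    unfold Hd
    simp only [e]
    refine le_iInf fun U => le_iInf fun h1 => le_iInf fun h2 => ?_
    exact iInf_le_of_le U (iInf_le_of_le h1 (iInf_le_of_le (fun i => (h2 i).trans hδr.le) le_rfl))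

/-- The measure. -/
noncomputable abbrev MF (f : ℝ≥0 → ℝ≥0) : Measure ℝ :=
  Measure.mkMetric (fun x : ℝ≥0∞ => (f x.toNNReal : ℝ≥0∞))

theorem MF_singleton (h0 : f 0 = 0) (x : ℝ) : MF f {x} = 0 := by
  rw [← HM_eq h0]
  refine le_antisymm (iSup₂_le fun δ _ => ?_) zero_le
  unfold Hd
  refine iInf_le_of_le (fun _ => {x}) (iInf_le_of_le ?_ (iInf_le_of_le ?_ ?_))
  · exact fun y hy => mem_iUnion.2 ⟨0, hy⟩
  · intro i
    simp
  · simp [h0]

theorem dichotomy (h0 : f 0 = 0) {A : Set ℝ} (hA : UNull A) {A₀ : Set ℝ} (hs : A₀ ⊆ A) :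
    HM f A₀ = 0 ∨ HM f A₀ = ⊤ := by
  rw [HM_eq h0]
  by_cases h : MF f A₀ = ⊤
  · exact Or.inr h
  · left
    set B := toMeasurable (MF f) A₀ with hB
    have h1 : MF f B ≠ ⊤ := by rw [hB, measure_toMeasurable]; exact h
    have h2 : ((MF f).restrict B) A = 0 := by
      refine hA _ ⟨?_⟩ fun z => ?_
      · rw [Measure.restrict_apply_univ]
        exact h1.lt_top
      · exact le_antisymm ((Measure.restrict_le_self {z}).trans (MF_singleton h0 z).le) zero_le
    have h3 := measure_mono_null hs h2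
    rw [Measure.restrict_apply' (measurableSet_toMeasurable _ _),
      inter_eq_left.2 (subset_toMeasurable _ _)] at h3
    exact h3

theorem lower (hf : IsGauge f) {m : ℕ → ℕ} (hm : StrictMono m)
    (hfm : ∀ k, ∀ t : ℝ≥0, (t : ℝ) ≤ ell m k → 0 < t → 12 * 6 ^ k * (t : ℝ) ≤ f t)
    (A : Set ((ℕ → Bool) × ℝ)) : volume (Prod.snd '' A) ≤ HM f (hh m '' A) := by
  refine le_trans ?_ (le_iSup₂ (f := fun (δ : ℝ≥0) (_ : 0 < δ) => Hd f δ (hh m '' A))
    (2⁻¹ : ℝ≥0) (by positivity))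
  refine le_iInf fun U => le_iInf fun h1 => le_iInf fun h2 => ?_
  have h3 : Prod.snd '' A ⊆ ⋃ n, Prod.snd '' (hh m ⁻¹' (U n)) := by
    rintro _ ⟨p, hp, rfl⟩
    obtain ⟨n, hn⟩ := mem_iUnion.1 (h1 ⟨p, hp, rfl⟩)
    exact mem_iUnion.2 ⟨n, p, hn, rfl⟩
  refine (measure_mono h3).trans ((measure_iUnion_le _).trans (ENNReal.tsum_le_tsum fun n => ?_))
  refine (Real.volume_le_diam _).trans (Metric.ediam_le ?_)
  rintro _ ⟨p, hp, rfl⟩ _ ⟨q, hq, rfl⟩
  by_cases hpq : p = q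
  · rw [hpq, edist_self]
    exact zero_le
  have h4 : edist (hh m p) (hh m q) ≤ Metric.ediam (U n) := Metric.edist_le_ediam_of_mem hp hq
  have h5 : Metric.ediam (U n) ≠ ⊤ := ne_top_of_le_ne_top ENNReal.coe_ne_top (h2 n)
  set t : ℝ≥0 := ⟨|hh m p - hh m q|, abs_nonneg _⟩ with ht
  have h6 : edist (hh m p) (hh m q) = t := by
    rw [edist_dist, Real.dist_eq, ht]
    exact ENNReal.ofReal_eq_coe_nnreal (abs_nonneg _)
  have h7 : t ≤ 2⁻¹ := by
    have := h4.trans (h2 n)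
    rw [h6] at this
    exact_mod_cast this
  have h8 : |hh m p - hh m q| < 1 := by
    have : (t : ℝ) ≤ 2⁻¹ := by exact_mod_cast h7
    have e : (t : ℝ) = |hh m p - hh m q| := rfl
    rw [← e]
    exact lt_of_le_of_lt this (by norm_num)
  obtain ⟨k, k1, k2, k3⟩ := sep hm h8 hpq
  have h9 : |p.2 - q.2| ≤ f t := k3.trans (hfm k t k2 (by exact_mod_cast k1))
  have h10 : f t ≤ f (Metric.ediam (U n)).toNNReal := by
    apply hf.mono
    rw [h6] at h4
    exact (ENNReal.le_toNNReal_of_coe_le h4 h5)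
  rw [edist_dist, Real.dist_eq]
  refine (ENNReal.ofReal_le_ofReal h9).trans ?_
  rw [ENNReal.ofReal_coe_nnreal]
  exact_mod_cast h10

theorem exists_scales (hf : IsGauge f) (ht : Tendsto (fun t : ℝ≥0 => f t / t) (𝓝[>] 0) atTop) :
    ∃ m : ℕ → ℕ, StrictMono m ∧
      ∀ k, ∀ t : ℝ≥0, (t : ℝ) ≤ ell m k → 0 < t → 12 * 6 ^ k * (t : ℝ) ≤ f t := by
  have h1 : ∀ k : ℕ, ∃ N : ℕ, ∀ n ≥ N, ∀ t : ℝ≥0, (t : ℝ) ≤ (1 / 2) ^ n → 0 < t →
      12 * 6 ^ k * (t : ℝ) ≤ f t := by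
    intro k
    have h2 := (tendsto_atTop.1 ht) (12 * 6 ^ k)
    rw [eventually_nhdsWithin_iff, Metric.eventually_nhds_iff] at h2
    obtain ⟨ε, hε, h3⟩ := h2
    obtain ⟨N, hN⟩ := exists_pow_lt_of_lt_one hε (by norm_num : (1 / 2 : ℝ) < 1)
    refine ⟨N, fun n hn t ht1 ht2 => ?_⟩
    have h4 : (1 / 2 : ℝ) ^ n ≤ (1 / 2) ^ N :=
      pow_le_pow_of_le_one (by norm_num) (by norm_num) hn
    have h5 : dist t 0 < ε := by
      rw [NNReal.dist_eq, NNReal.coe_zero, sub_zero, NNReal.abs_eq]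
      exact lt_of_le_of_lt (ht1.trans h4) hN
    have h6 := h3 h5 ht2
    rw [le_div_iff₀ ht2] at h6
    exact_mod_cast h6
  obtain ⟨m, hm, h2⟩ := extraction_forall_of_eventually' h1
  refine ⟨m, hm, fun k t h3 h4 => h2 k t (h3.trans ?_) h4⟩
  unfold ell
  have : ((1 : ℝ) / 6) ^ k ≤ 1 := pow_le_one₀ (by norm_num) (by norm_num)
  have h5 : (0 : ℝ) < (1 / 2) ^ m k := by positivity
  nlinarith

theorem exists_bad (hf : IsGauge f) (ht : Tendsto (fun t : ℝ≥0 => f t / t) (𝓝[>] 0) atTop) :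
    ∃ A : Set ℝ, UNull A ∧ HM f A = ⊤ ∧ ∀ A₀ ⊆ A, HM f A₀ = 0 ∨ HM f A₀ = ⊤ := by
  obtain ⟨m, hm, hfm⟩ := exists_scales hf ht
  obtain ⟨A, hA, hAv⟩ := exists_unull
  have h1 : UNull (hh m '' A) := hA.image (hh_emb hm)
  refine ⟨hh m '' A, h1, ?_, fun A₀ h => dichotomy hf.zero h1 h⟩
  rcases dichotomy hf.zero h1 (subset_refl _) with h | h
  · exfalso
    apply hAv
    exact le_antisymm ((lower hf hm hfm A).trans h.le) zero_le
  · exact h

theorem unit_le (hf : IsGauge f) {C : ℝ≥0} (hC : ∃ᶠ t : ℝ≥0 in 𝓝[>] 0, f t / t < C) (a : ℝ) :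
    HM f (Icc a (a + 1)) ≤ 2 * C := by
  refine iSup₂_le fun δ hδ => ?_
  have h1 : ∀ᶠ t : ℝ≥0 in 𝓝[>] 0, t < min δ 1 ∧ 0 < t := by
    refine (eventually_nhdsWithin_of_eventually_nhds ?_).and self_mem_nhdsWithin
    exact eventually_lt_nhds (lt_min hδ one_pos)
  obtain ⟨t, h2, h3, h4⟩ := (hC.and_eventually h1).exists
  have h5 : (0 : ℝ) < t := by exact_mod_cast h4
  set n : ℕ := ⌈(1 / (t : ℝ))⌉₊ with hn
  unfold Hd
  let U : ℕ → Set ℝ := fun i => if i < n then Icc (a + i * t) (a + (i + 1) * t) else ∅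
  have hd : ∀ i, Metric.ediam (U i) ≤ t := by
    intro i
    simp only [U]
    split_ifs
    · rw [Real.ediam_Icc]
      have : a + ((i : ℝ) + 1) * t - (a + i * t) = t := by ring
      rw [this, ENNReal.ofReal_coe_nnreal]
    · simp
  refine iInf_le_of_le U (iInf_le_of_le ?_ (iInf_le_of_le ?_ ?_))
  · intro x hx
    obtain ⟨hx1, hx2⟩ := hx
    rcases eq_or_lt_of_le hx2 with hx2 | hx2
    · refine mem_iUnion.2 ⟨n - 1, ?_⟩
      have hn1 : 0 < n := Nat.ceil_pos.2 (by positivity)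
      have hn2 : (1 / (t : ℝ)) ≤ n := Nat.le_ceil _
      have hn3 : (n : ℝ) < 1 / (t : ℝ) + 1 := Nat.ceil_lt_add_one (by positivity)
      rw [div_le_iff₀ h5] at hn2
      have hn4 : ((n : ℝ) - 1) * t < 1 := by
        have : (n : ℝ) - 1 < 1 / t := by linarith
        rwa [lt_div_iff₀ h5] at this
      simp only [U]
      rw [if_pos (by omega)]
      have e1 : ((n - 1 : ℕ) : ℝ) = (n : ℝ) - 1 := by
        rw [Nat.cast_sub (by omega)]; simp
      rw [e1, hx2]
      constructor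
      · linarith
      · have : (n : ℝ) - 1 + 1 = n := by ring
        rw [this]
        linarith
    · set i : ℕ := ⌊(x - a) / t⌋₊ with hi
      have h6 : 0 ≤ (x - a) / t := div_nonneg (by linarith) h5.le
      have h7 : (i : ℝ) ≤ (x - a) / t := Nat.floor_le h6
      have h8 : (x - a) / t < i + 1 := Nat.lt_floor_add_one _
      rw [le_div_iff₀ h5] at h7
      rw [div_lt_iff₀ h5] at h8
      refine mem_iUnion.2 ⟨i, ?_⟩
      simp only [U]
      rw [if_pos]
      · exact ⟨by linarith, by linarith⟩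
      · have h9 : (i : ℝ) < n := by
          refine lt_of_lt_of_le ?_ (Nat.le_ceil _)
          rw [lt_div_iff₀ h5]
          linarith
        exact_mod_cast h9
  · intro i
    refine (hd i).trans ?_
    exact_mod_cast (lt_of_lt_of_le h3 (min_le_left _ _)).le
  · have h6 : ∀ i, (f (Metric.ediam (U i)).toNNReal : ℝ≥0∞) ≤ if i < n then (f t : ℝ≥0∞) else 0 := by
      intro i
      split_ifs with h
      · have h7 : (Metric.ediam (U i)).toNNReal ≤ t := by
          have := ENNReal.toNNReal_mono ENNReal.coe_ne_top (hd i)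
          simpa using this
        exact_mod_cast hf.mono h7
      · simp only [U]
        rw [if_neg h]
        simp [hf.zero]
    refine (ENNReal.tsum_le_tsum h6).trans ?_
    rw [tsum_eq_sum (s := Finset.range n) (by
      intro i hi
      rw [if_neg (by simpa using hi)])]
    rw [Finset.sum_congr rfl (g := fun _ => (f t : ℝ≥0∞)) (by
      intro i hi
      rw [if_pos (by simpa using hi)])]
    rw [Finset.sum_const, Finset.card_range, nsmul_eq_mul]
    have h7 : (n : ℝ≥0) * f t ≤ 2 * C := by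
      have hn3 : (n : ℝ) < 1 / (t : ℝ) + 1 := Nat.ceil_lt_add_one (by positivity)
      rw [div_lt_iff₀ h4] at h2
      have h8 : (f t : ℝ) < C * t := by exact_mod_cast h2
      have h9 : (t : ℝ) < 1 := by
        have := lt_of_lt_of_le h3 (min_le_right _ _)
        exact_mod_cast this
      have h10 : (n : ℝ) * t < 2 := by
        have : (n : ℝ) * t < (1 / t + 1) * t := mul_lt_mul_of_pos_right hn3 h5
        have e : (1 / (t : ℝ) + 1) * t = 1 + t := by field_simp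
        linarith
      have h11 : (n : ℝ) * f t ≤ 2 * C := by
        have a1 : (n : ℝ) * f t ≤ n * (C * t) := mul_le_mul_of_nonneg_left h8.le (Nat.cast_nonneg _)
        have a2 : (n : ℝ) * (C * t) = (n * t) * C := by ring
        have a3 : ((n : ℝ) * t) * C ≤ 2 * C := mul_le_mul_of_nonneg_right h10.le C.2
        linarith
      exact_mod_cast h11
    exact_mod_cast h7

theorem exists_good (hf : IsGauge f) (ht : ¬ Tendsto (fun t : ℝ≥0 => f t / t) (𝓝[>] 0) atTop)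
    {A : Set ℝ} (hA : 0 < HM f A) : ∃ A₀ ⊆ A, 0 < HM f A₀ ∧ HM f A₀ < ⊤ := by
  rw [tendsto_atTop] at ht
  push Not at ht
  obtain ⟨C, hC⟩ := ht
  have hC' : ∃ᶠ t : ℝ≥0 in 𝓝[>] 0, f t / t < C := by
    refine fun h => hC ?_
    filter_upwards [h] with t ht
    exact ht
  have h1 : A = ⋃ n : ℤ, A ∩ Icc (n : ℝ) (n + 1) := by
    ext x
    simp only [mem_iUnion, mem_inter_iff]
    constructor
    · intro hx
      exact ⟨⌊x⌋, hx, Int.floor_le x, (Int.lt_floor_add_one x).le⟩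
    · rintro ⟨_, hx, _⟩
      exact hx
  have h2 : ∃ n : ℤ, 0 < HM f (A ∩ Icc (n : ℝ) (n + 1)) := by
    by_contra hcon
    push Not at hcon
    have h3 : MF f A = 0 := by
      rw [h1, measure_iUnion_null_iff]
      intro n
      rw [← HM_eq hf.zero]
      exact le_antisymm (hcon n) zero_le
    rw [HM_eq hf.zero, h3] at hA
    exact lt_irrefl _ hA
  obtain ⟨n, hn⟩ := h2
  refine ⟨_, inter_subset_left, hn, ?_⟩
  have h3 : HM f (A ∩ Icc (n : ℝ) (n + 1)) ≤ HM f (Icc (n : ℝ) (n + 1)) := by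
    rw [HM_eq hf.zero, HM_eq hf.zero]
    exact measure_mono inter_subset_right
  refine (h3.trans (unit_le hf hC' n)).trans_lt ?_
  exact ENNReal.mul_lt_top (by simp) ENNReal.coe_lt_top

theorem sqrt_gauge : IsGauge NNReal.sqrt :=
  ⟨NNReal.sqrt.monotone, fun t => NNReal.continuous_sqrt.continuousWithinAt, NNReal.sqrt_zero,
    fun t ht => NNReal.sqrt_pos.2 ht⟩

theorem sqrt_tendsto : Tendsto (fun t : ℝ≥0 => NNReal.sqrt t / t) (𝓝[>] 0) atTop := by
  rw [tendsto_atTop]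
  intro C
  have h1 : ∀ᶠ t : ℝ≥0 in 𝓝[>] 0, t < 1 / (C + 1) ^ 2 ∧ 0 < t := by
    refine (eventually_nhdsWithin_of_eventually_nhds ?_).and self_mem_nhdsWithin
    exact eventually_lt_nhds (by positivity)
  filter_upwards [h1] with t ht
  obtain ⟨ht1, ht2⟩ := ht
  rw [le_div_iff₀ ht2]
  have h2 : (C + 1) ^ 2 * t ≤ 1 := by
    rw [lt_div_iff₀ (by positivity)] at ht1
    rw [mul_comm]
    exact ht1.le
  rw [NNReal.le_sqrt_iff_sq_le]
  have h3 : C ^ 2 * t ≤ 1 := le_trans (mul_le_mul_of_nonneg_right (by gcongr; simp) zero_le) h2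
  calc (C * t) ^ 2 = (C ^ 2 * t) * t := by ring
    _ ≤ 1 * t := mul_le_mul_of_nonneg_right h3 zero_le
    _ = t := one_mul t

end Pool.Agent.W927.Gr
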