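import Mathlib

/-!
Universally null sets which are large for Lebesgue measure after a projection.
-/

namespace Pool.Agent.W927.Gr

open Set Filter Topology MeasureTheory Cardinal

/-- A Borel set with null sections, universal for null sets. -/
theorem exists_universal_null {X : Type} [TopologicalSpace X] [SecondCountableTopology X]
    [Nonempty X] [MeasurableSpace X] [BorelSpace X] (ν : Measure X) [SFinite ν] [ν.OuterRegular] :
    ∃ N : Set ((ℕ → Bool) × X), MeasurableSet N ∧ (∀ c, ν {y | (c, y) ∈ N} = 0) ∧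
      ∀ S : Set X, ν S = 0 → ∃ c, ∀ y ∈ S, (c, y) ∈ N := by
  classical
  obtain ⟨x0⟩ := ‹Nonempty X›
  have hbne : (TopologicalSpace.countableBasis X).Nonempty := by
    obtain ⟨v, hv, _⟩ := (TopologicalSpace.isBasis_countableBasis X).exists_subset_of_mem_open
      (mem_univ x0) isOpen_univ
    exact ⟨v, hv⟩
  obtain ⟨V, hV⟩ := (TopologicalSpace.countable_countableBasis X).exists_eq_range hbne
  have hVb : TopologicalSpace.IsTopologicalBasis (range V) :=
    hV ▸ TopologicalSpace.isBasis_countableBasis X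
  have hVo : ∀ n, IsOpen (V n) := fun n => hVb.isOpen ⟨n, rfl⟩
  let O : ℕ → Set ((ℕ → Bool) × X) := fun k =>
    {p | ∃ n, p.1 (Nat.pair k n) = true ∧ p.2 ∈ V n}
  have hOm : ∀ k, MeasurableSet (O k) := by
    intro k
    have h1 : O k = ⋃ n, {p | p.1 (Nat.pair k n) = true} ∩ {p | p.2 ∈ V n} := by
      ext p; simp [O]
    rw [h1]
    refine MeasurableSet.iUnion fun n => MeasurableSet.inter ?_ ?_
    · have h2 : Measurable fun p : (ℕ → Bool) × X => p.1 (Nat.pair k n) :=
        (measurable_pi_apply _).comp measurable_fst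
      exact h2 (measurableSet_singleton true)
    · exact (hVo n).measurableSet.preimage measurable_snd
  let N : Set ((ℕ → Bool) × X) :=
    ⋂ k, ({p | ν (Prod.mk p.1 ⁻¹' O k) ≤ (2⁻¹ : ENNReal) ^ k} ∩ O k)
  refine ⟨N, ?_, ?_, ?_⟩
  · refine MeasurableSet.iInter fun k => MeasurableSet.inter ?_ (hOm k)
    have h1 : Measurable fun c : ℕ → Bool => ν (Prod.mk c ⁻¹' O k) :=
      measurable_measure_prodMk_left (hOm k)
    exact measurableSet_le (h1.comp measurable_fst) measurable_const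
  · intro c
    by_contra hne
    have h1 : ∀ k, ν {y | (c, y) ∈ N} ≤ (2⁻¹ : ENNReal) ^ k := by
      intro k
      by_cases h : ν (Prod.mk c ⁻¹' O k) ≤ (2⁻¹ : ENNReal) ^ k
      · refine (measure_mono ?_).trans h
        intro y hy
        exact (mem_iInter.1 hy k).2
      · have : {y | (c, y) ∈ N} = ∅ := by
          ext y
          refine ⟨fun hy => ?_, fun hy => absurd hy (Set.notMem_empty _)⟩
          exact absurd (mem_iInter.1 hy k).1 h
        rw [this, measure_empty]
        exact zero_le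
    have h2 : Tendsto (fun k : ℕ => (2⁻¹ : ENNReal) ^ k) atTop (𝓝 0) :=
      ENNReal.tendsto_pow_atTop_nhds_zero_of_lt_one (by norm_num)
    exact hne (le_antisymm (ge_of_tendsto' h2 h1) zero_le)
  · intro S hS
    have h1 : ∀ k : ℕ, ∃ U : Set X, S ⊆ U ∧ IsOpen U ∧ ν U < (2⁻¹ : ENNReal) ^ k := by
      intro k
      obtain ⟨U, hSU, hU, hν⟩ := Set.exists_isOpen_lt_of_lt S ((2⁻¹ : ENNReal) ^ k)
        (by rw [hS]; exact ENNReal.pow_pos (by norm_num) k) (μ := ν)
      exact ⟨U, hSU, hU, hν⟩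
    choose U hSU hU hν using h1
    refine ⟨fun i => decide (V (Nat.unpair i).2 ⊆ U (Nat.unpair i).1), ?_⟩
    intro y hy
    refine mem_iInter.2 fun k => ⟨?_, ?_⟩
    · show ν (Prod.mk _ ⁻¹' O k) ≤ _
      refine le_trans (measure_mono ?_) (hν k).le
      rintro z ⟨n, hn, hz⟩
      simp only [Nat.unpair_pair, decide_eq_true_eq] at hn
      exact hn hz
    · obtain ⟨_, ⟨n, rfl⟩, hyn, hn⟩ := hVb.exists_subset_of_mem_open (hSU k hy) (hU k)
      refine ⟨n, ?_, hyn⟩
      simpa using hn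

/-- The distribution function. -/
noncomputable def cd (μ : Measure ℝ) (x : ℝ) : ℝ := μ.real (Iic x)

section Cdf

variable {μ : Measure ℝ} [IsFiniteMeasure μ]

theorem cd_mono : Monotone (cd μ) := fun _ _ h => measureReal_mono (Iic_subset_Iic.2 h)

theorem cd_sub {x y : ℝ} (h : x ≤ y) (ha : ∀ z, μ {z} = 0) :
    μ (Icc x y) = ENNReal.ofReal (cd μ y - cd μ x) := by
  have h1 : Iic y = Iic x ∪ Ioc x y := (Iic_union_Ioc_eq_Iic h).symm
  have h2 : μ.real (Iic y) = μ.real (Iic x) + μ.real (Ioc x y) := by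
    rw [h1]
    exact measureReal_union (by
      rw [Set.disjoint_left]
      rintro z hz ⟨hz1, -⟩
      exact absurd hz (not_le.2 hz1)) measurableSet_Ioc
  have h3 : μ (Icc x y) = μ (Ioc x y) := by
    rw [← Ioc_union_left h]
    refine le_antisymm ((measure_union_le _ _).trans ?_) (measure_mono subset_union_left)
    rw [ha, add_zero]
  rw [h3]
  unfold cd
  rw [h2, add_sub_cancel_left, ofReal_measureReal]

theorem convex_le {J : Set ℝ} (hJ : J.OrdConnected) {r : ENNReal}
    (h : ∀ x ∈ J, ∀ y ∈ J, x ≤ y → μ (Icc x y) ≤ r) : μ J ≤ r := by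
  rw [hJ.measurableSet.measure_eq_iSup_isCompact]
  refine iSup_le fun K => iSup_le fun hKJ => iSup_le fun hK => ?_
  rcases K.eq_empty_or_nonempty with rfl | hne
  · simp
  have h1 := hK.sInf_mem hne
  have h2 := hK.sSup_mem hne
  refine le_trans (measure_mono ?_) (h _ (hKJ h1) _ (hKJ h2) (csInf_le hK.bddBelow h2))
  exact fun z hz => ⟨csInf_le hK.bddBelow hz, le_csSup hK.bddAbove hz⟩

theorem preimage_le (ha : ∀ z, μ {z} = 0) (t : Set ℝ) :
    μ (cd μ ⁻¹' t) ≤ Metric.ediam t := by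
  set S := cd μ ⁻¹' t with hS
  let J : Set ℝ := {z | ∃ x ∈ S, ∃ y ∈ S, x ≤ z ∧ z ≤ y}
  have hSJ : S ⊆ J := fun z hz => ⟨z, hz, z, hz, le_rfl, le_rfl⟩
  have hJ : J.OrdConnected := by
    refine ⟨?_⟩
    rintro a ⟨x, hx, _, _, hxa, _⟩ b ⟨_, _, y, hy, _, hby⟩ z ⟨hz1, hz2⟩
    exact ⟨x, hx, y, hy, hxa.trans hz1, hz2.trans hby⟩
  refine (measure_mono hSJ).trans (convex_le hJ ?_)
  rintro a ⟨x, hx, _, _, hxa, _⟩ b ⟨_, _, y, hy, _, hby⟩ hab
  refine (measure_mono (Icc_subset_Icc hxa hby)).trans ?_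
  rw [cd_sub (hxa.trans (hab.trans hby)) ha]
  have h1 : ENNReal.ofReal (cd μ y - cd μ x) = edist (cd μ y) (cd μ x) := by
    rw [edist_dist, Real.dist_eq, abs_of_nonneg (sub_nonneg.2 (cd_mono (hxa.trans (hab.trans hby))))]
  rw [h1]
  exact Metric.edist_le_ediam_of_mem hy hx

theorem null_preimage (ha : ∀ z, μ {z} = 0) {S : Set ℝ} (hS : volume S = 0) :
    μ (cd μ ⁻¹' S) = 0 := by
  rw [← MeasureTheory.hausdorffMeasure_real, MeasureTheory.Measure.hausdorffMeasure_apply] at hS
  have h1 : (⨅ (t : ℕ → Set ℝ) (_ : S ⊆ iUnion t) (_ : ∀ n, Metric.ediam (t n) ≤ 1),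
      ∑' n, ⨆ _ : (t n).Nonempty, Metric.ediam (t n) ^ (1 : ℝ)) = 0 := by
    refine le_antisymm ?_ zero_le
    rw [← hS]
    exact le_iSup₂_of_le (1 : ENNReal) one_pos le_rfl
  refine le_antisymm (le_of_forall_pos_le_add fun ε hε => ?_) zero_le
  rw [zero_add]
  have h2 : (⨅ (t : ℕ → Set ℝ) (_ : S ⊆ iUnion t) (_ : ∀ n, Metric.ediam (t n) ≤ 1),
      ∑' n, ⨆ _ : (t n).Nonempty, Metric.ediam (t n) ^ (1 : ℝ)) < ε := by rw [h1]; exact hε
  simp only [iInf_lt_iff] at h2
  obtain ⟨t, ht, -, h3⟩ := h2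
  refine le_trans ?_ h3.le
  refine (measure_mono (preimage_mono ht)).trans ?_
  rw [preimage_iUnion]
  refine (measure_iUnion_le _).trans (ENNReal.tsum_le_tsum fun n => ?_)
  rcases (t n).eq_empty_or_nonempty with h | h
  · simp [h]
  · rw [iSup_pos h, ENNReal.rpow_one]
    exact preimage_le ha _

end Cdf

/-- Sets smaller than every Lebesgue nonnull set are null for all finite measures without atoms. -/
theorem small_null {κ : Cardinal.{0}} (hκ : ∀ S : Set ℝ, #S < κ → volume S = 0) {Z : Type}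
    [MeasurableSpace Z] [StandardBorelSpace Z] (μ : Measure Z) [IsFiniteMeasure μ]
    (ha : ∀ z, μ {z} = 0) {S : Set Z} (hS : #S < κ) : μ S = 0 := by
  have hf := measurableEmbedding_embeddingReal Z
  set f := embeddingReal Z with hfdef
  have ha' : ∀ z, (μ.map f) {z} = 0 := by
    intro z
    rw [hf.map_apply]
    have h1 : (f ⁻¹' {z}).Subsingleton := by
      intro a h b h'
      exact hf.injective ((show f a = z from h).trans (show f b = z from h').symm)
    rcases h1.eq_empty_or_singleton with h | ⟨w, h⟩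
    · rw [h, measure_empty]
    · rw [h, ha]
  have h1 : (μ.map f) (cd (μ.map f) ⁻¹' (cd (μ.map f) '' (f '' S))) = 0 := by
    refine null_preimage ha' (hκ _ ?_)
    exact (mk_image_le.trans mk_image_le).trans_lt hS
  have h2 := measure_mono_null (subset_preimage_image _ _) h1
  rw [hf.map_apply, preimage_image_eq _ hf.injective] at h2
  exact h2

/-- Universally null sets. -/
def UNull {Z : Type} [MeasurableSpace Z] (A : Set Z) : Prop :=
  ∀ μ : Measure Z, IsFiniteMeasure μ → (∀ z, μ {z} = 0) → μ A = 0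

theorem exists_unull : ∃ A : Set ((ℕ → Bool) × ℝ), UNull A ∧ volume (Prod.snd '' A) ≠ 0 := by
  classical
  let S : Set Cardinal.{0} := {κ | ∃ T : Set ℝ, volume T ≠ 0 ∧ #T = κ}
  have hSne : S.Nonempty := ⟨_, univ, by simp, rfl⟩
  obtain ⟨T, hT, hTκ⟩ := csInf_mem hSne
  set κ : Cardinal.{0} := sInf S with hκ
  have hmin : ∀ T' : Set ℝ, #T' < κ → volume T' = 0 := by
    intro T' hT'
    by_contra hcon
    exact absurd (csInf_le' (show #T' ∈ S from ⟨T', hcon, rfl⟩)) (not_le.2 hT')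
  have hℵ : ℵ₀ ≤ κ := by
    by_contra hcon
    push Not at hcon
    rw [← hTκ, Cardinal.lt_aleph0_iff_set_finite] at hcon
    exact hT (hcon.measure_zero _)
  let I : Type := κ.ord.ToType
  have hI : #I = κ := by simp [I]
  obtain ⟨e⟩ : Nonempty (I ≃ T) := Cardinal.eq.1 (hI.trans hTκ.symm)
  have hIic : ∀ ξ : I, #(Iic ξ) < κ := by
    intro ξ
    have h1 : #(Iio ξ) < κ := by
      have := Cardinal.mk_Iio_lt ξ (by simp [I])
      rwa [hI] at this
    have h2 : (Iic ξ : Set I) = insert ξ (Iio ξ) := Iio_insert.symm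
    rw [h2]
    refine (Cardinal.mk_insert_le).trans_lt ?_
    exact Cardinal.add_lt_of_lt hℵ h1 (Cardinal.one_lt_aleph0.trans_le hℵ)
  obtain ⟨N, hNm, hNs, hNu⟩ := exists_universal_null (volume : Measure ℝ)
  have hc : ∀ ξ : I, ∃ c : ℕ → Bool, ∀ η ≤ ξ, (c, (e η : ℝ)) ∈ N := by
    intro ξ
    have h1 : volume ((fun η : I => (e η : ℝ)) '' Iic ξ) = 0 :=
      hmin _ (Cardinal.mk_image_le.trans_lt (hIic ξ))
    obtain ⟨c, hc⟩ := hNu _ h1
    exact ⟨c, fun η hη => hc _ ⟨η, hη, rfl⟩⟩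
  choose c hc using hc
  let a : I → (ℕ → Bool) × ℝ := fun ξ => (c ξ, (e ξ : ℝ))
  refine ⟨range a, ?_, ?_⟩
  · intro μ hμ hμa
    let B : Set (((ℕ → Bool) × ℝ) × ℝ) := {p | (p.1.1, p.2) ∈ N}
    have hBm : MeasurableSet B :=
      hNm.preimage ((measurable_fst.comp measurable_fst).prodMk measurable_snd)
    have hB0 : (μ.prod volume) B = 0 := by
      rw [Measure.measure_prod_null hBm]
      exact Eventually.of_forall fun z => hNs z.1
    have hB1 : ∀ᵐ y ∂(volume : Measure ℝ), μ {z | (z, y) ∈ B} = 0 := by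
      have h1 : ((volume : Measure ℝ).prod μ) (Prod.swap ⁻¹' B) = 0 := by
        rw [← Measure.map_apply measurable_swap hBm, Measure.prod_swap]
        exact hB0
      rw [Measure.measure_prod_null (measurable_swap hBm)] at h1
      exact h1
    obtain ⟨γ, hγ⟩ : ∃ γ : I, μ {z | (z, (e γ : ℝ)) ∈ B} = 0 := by
      by_contra hcon
      push Not at hcon
      refine hT (measure_mono_null ?_ hB1)
      intro y hy hy'
      have := hcon (e.symm ⟨y, hy⟩)
      rw [Equiv.apply_symm_apply] at this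
      exact this hy'
    have h2 : μ (a '' Iic γ) = 0 :=
      small_null hmin μ hμa (Cardinal.mk_image_le.trans_lt (hIic γ))
    refine measure_mono_null ?_ (measure_union_null hγ h2)
    rintro _ ⟨ξ, rfl⟩
    by_cases hp : ξ ≤ γ
    · exact Or.inr ⟨ξ, hp, rfl⟩
    · exact Or.inl (hc _ _ (not_le.1 hp).le)
  · have : Prod.snd '' range a = T := by
      ext y
      constructor
      · rintro ⟨_, ⟨ξ, rfl⟩, rfl⟩
        exact (e ξ).2
      · intro hy
        refine ⟨_, ⟨e.symm ⟨y, hy⟩, rfl⟩, ?_⟩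
        simp [a]
    rw [this]
    exact hT

theorem UNull.image {Y Z : Type} [MeasurableSpace Y] [MeasurableSpace Z] {A : Set Y}
    (hA : UNull A) {f : Y → Z} (hf : MeasurableEmbedding f) : UNull (f '' A) := by
  intro μ hμ hμa
  have h1 : (μ.comap f) A = 0 := by
    refine hA _ ⟨?_⟩ fun z => ?_
    · rw [hf.comap_apply]
      exact measure_lt_top _ _
    · rw [hf.comap_apply, image_singleton, hμa]
  rwa [hf.comap_apply] at h1

end Pool.Agent.W927.Gr
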